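import Pool.Agent.W443.DX.Stm4

/-!
# DX3-CPR
-/

set_option autoImplicit false

namespace Pool.Agent.W766.DX

open MvPolynomial Pool.Agent.W443.DX

theorem cpr (h1 : S_PTS) (h2 : S_ELI) : S_CPR := by
  intro p _ f g hJ a b π hab hπ ha hb
  obtain ⟨q, hq, c, d, hqc⟩ := h2 (ZMod p) a b hab 0
  obtain ⟨r, hr, c', d', hrc⟩ := h2 (ZMod p) a b hab 1
  refine h1 p f g hJ q r π hq hr hπ ?_ ?_
  · have h := congrArg (aeval ![f, g]) hqc
    rw [← Polynomial.aeval_algHom_apply, aeval_X, map_add, map_mul, map_mul] at h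
    simp only [Matrix.cons_val_zero] at h
    rw [h]
    exact dvd_add (dvd_mul_of_dvd_right ha _) (dvd_mul_of_dvd_right hb _)
  · have h := congrArg (aeval ![f, g]) hrc
    rw [← Polynomial.aeval_algHom_apply, aeval_X, map_add, map_mul, map_mul] at h
    simp only [Matrix.cons_val_one] at h
    rw [show Polynomial.aeval g r = _ from h]
    exact dvd_add (dvd_mul_of_dvd_right ha _) (dvd_mul_of_dvd_right hb _)

end Pool.Agent.W766.DX
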