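import Pool.Agent.W443.DX.Stm4

/-!
# DX3-MOD
-/

set_option autoImplicit false

namespace Pool.Agent.W766.DX

open MvPolynomial Pool.Agent.W443.DX

theorem mod3 (h1 : S_POW) (h2 : S_CZR) (h3 : S_JAC) (h4 : S_DEG) (h5 : S_LME) (h6 : S_BND)
    (h7 : S_DEN) (h8 : S_DEP) (h9 : S_ALG) (h10 : S_BIR) (h11 : S_KEL) (h12 : S_DGB)
    (_h13 : S_EVM) : S_MOD3 := by
  intro d p _ hp2 f F u α β γ hWP hF hdeg hα hrel j
  have hF0 : mapW (ZMod.castHom (Dvd.intro_left p (by ring : p * p = p ^ 2)) (ZMod p))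
      (nf (ZMod (p ^ 2)) (f 0)) = nf (ZMod p) (F 0) := by
    rw [mapW_nf, ← hF]; rfl
  have hF1 : mapW (ZMod.castHom (Dvd.intro_left p (by ring : p * p = p ^ 2)) (ZMod p))
      (nf (ZMod (p ^ 2)) (f 1)) = nf (ZMod p) (F 1) := by
    rw [mapW_nf, ← hF]; rfl
  have hWP' : nf (ZMod (p ^ 2)) (f 0) * nf (ZMod (p ^ 2)) (f 1) -
      nf (ZMod (p ^ 2)) (f 1) * nf (ZMod (p ^ 2)) (f 0) = 1 := hWP
  have hrel' : nf (ZMod p) (F 0) * nf (ZMod p) (F 1) - nf (ZMod p) (F 1) * nf (ZMod p) (F 0)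
      = 1 := by
    have h := congrArg (mapW (ZMod.castHom (Dvd.intro_left p (by ring : p * p = p ^ 2)) (ZMod p)))
      hWP'
    rw [map_sub] at h
    erw [RingHom.map_mul, RingHom.map_mul] at h
    rwa [map_one, hF0, hF1] at h
  have hne : ∀ j, F j ≠ 0 := by
    have h01 : (0 : W (ZMod p)) ≠ 1 := by
      intro h
      have h' : (0 : MvPolynomial (Fin 2) (ZMod p)) = 1 :=
        (nf (ZMod p)).injective (by rw [map_zero, nf_one, h])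
      exact zero_ne_one h'
    intro j hj
    apply h01
    rw [← hrel']
    fin_cases j
    · rw [show F 0 = 0 from hj, map_zero, zero_mul, mul_zero, sub_zero]
    · rw [show F 1 = 0 from hj, map_zero, zero_mul, mul_zero, sub_zero]
  have hp0 : ((p : ℕ) : W (ZMod p)) = 0 := by
    have : ((p : ℕ) : W (ZMod p)) = algebraMap (ZMod p) (W (ZMod p)) (p : ZMod p) := by
      rw [map_natCast]
    rw [this, CharP.cast_eq_zero, map_zero]
  obtain ⟨e1, e2⟩ := h1 p (W (ZMod p)) _ _ hp0 hrel'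
  obtain ⟨f', hf⟩ := h2 p (ZMod p) (nf (ZMod p) (F 0)) (nf (ZMod p) (F 1))
    (nf (ZMod p) (F 0) ^ p) hrel' (Commute.self_pow _ _).eq e1.symm
  obtain ⟨g', hg⟩ := h2 p (ZMod p) (nf (ZMod p) (F 0)) (nf (ZMod p) (F 1))
    (nf (ZMod p) (F 1) ^ p) hrel' e2 (Commute.self_pow _ _).eq
  have hJ : Jac f' g' = 1 := by
    refine h3 p (nf (ZMod (p ^ 2)) (f 0)) (nf (ZMod (p ^ 2)) (f 1)) hWP' f' g' ?_ ?_
    · rw [hF0, hf]
    · rw [hF1, hg]
  have hfd : ∀ i, degreeOf i f' ≤ d := by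
    intro i
    obtain ⟨B, C, hL⟩ := (h5 (ZMod p) i (F 0)).1 (hne 0)
    have hL' := (h4 p (ZMod p) i (F 0) f' B C hf).1 hL
    rw [← ((h5 (ZMod p) i f').2 _ _ hL').1, ((h5 (ZMod p) i (F 0)).2 _ _ hL).1]
    exact hdeg i 0
  have hgd : ∀ i, degreeOf i g' ≤ d := by
    intro i
    obtain ⟨B, C, hL⟩ := (h5 (ZMod p) i (F 1)).1 (hne 1)
    have hL' := (h4 p (ZMod p) i (F 1) g' B C hg).1 hL
    rw [← ((h5 (ZMod p) i g').2 _ _ hL').1, ((h5 (ZMod p) i (F 1)).2 _ _ hL).1]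
    exact hdeg i 1
  have hden := h7 p (ZMod p) (nf (ZMod p) (F 0)) (nf (ZMod p) (F 1)) u α β γ f' g' hrel' hf hg
    hα hrel
  have hind := h9 p f' g' hJ
  have hdep := h8 p (ZMod p) (nf (ZMod p) (F 0)) (nf (ZMod p) (F 1)) u f' g' hrel' hf hg hind hden
  have hbir := h10 p f' g' hp2 hJ hdep
  obtain ⟨G₁, G₂, hI⟩ := h11 p f' g' hJ hbir
  have hG := h12 (ZMod p) d f' g' G₁ G₂ hI hfd hgd
  obtain ⟨⟨H1, c1, b1⟩, ⟨H2, c2, b2⟩⟩ := h6 p (ZMod p) _ _ f' g' G₁ G₂ hrel' hf hg hI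
  fin_cases j
  · exact ⟨H1, c1, fun i => by rw [b1]; exact (hG i).1⟩
  · exact ⟨H2, c2, fun i => by rw [b2]; exact (hG i).2⟩

end Pool.Agent.W766.DX
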