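import Pool.Agent.W443.DX.Stm4

/-!
# DX3-PTS
-/

set_option autoImplicit false

namespace Pool.Agent.W766.DX

open MvPolynomial Pool.Agent.W443.DX

theorem exists_irr {k : Type} [Field k] (f π : MvPolynomial (Fin 2) k) (hπ : Prime π)
    (q : Polynomial k) (hq : q ≠ 0) (h : π ∣ Polynomial.aeval f q) :
    ∃ q₁ : Polynomial k, Irreducible q₁ ∧ π ∣ Polynomial.aeval f q₁ := by
  revert h hq
  refine WfDvdMonoid.induction_on_irreducible q ?_ ?_ ?_
  · intro h; exact absurd rfl h
  · intro u hu _ h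
    exact absurd (isUnit_of_dvd_unit h (hu.map (Polynomial.aeval f))) hπ.not_unit
  · intro a i ha hi ih _ h
    rw [map_mul] at h
    rcases hπ.dvd_or_dvd h with h | h
    · exact ⟨i, hi, h⟩
    · exact ih ha h

theorem not_dvd_der {p : ℕ} [Fact p.Prime] (f π : MvPolynomial (Fin 2) (ZMod p)) (hπ : Prime π)
    (q : Polynomial (ZMod p)) (hq : Irreducible q) (h : π ∣ Polynomial.aeval f q) :
    ¬ π ∣ Polynomial.aeval f q.derivative := by
  intro h'
  obtain ⟨a, b, hab⟩ := PerfectField.separable_of_irreducible hq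
  have h1 := congrArg (Polynomial.aeval f) hab
  rw [map_add, map_mul, map_mul, map_one] at h1
  refine hπ.not_unit (isUnit_of_dvd_one ?_)
  rw [← h1]
  exact dvd_add (dvd_mul_of_dvd_right h _) (dvd_mul_of_dvd_right h' _)

theorem pts : S_PTS := by
  intro p _ f g hJ q r π hq hr hπ h1 h2
  have hp : Prime π := hπ.prime
  obtain ⟨q₁, hq₁, hd₁⟩ := exists_irr f π hp q hq h1
  obtain ⟨r₁, hr₁, hd₂⟩ := exists_irr g π hp r hr h2
  have e1 := not_dvd_der f π hp q₁ hq₁ hd₁
  have e2 := not_dvd_der g π hp r₁ hr₁ hd₂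
  obtain ⟨h, hh⟩ := hd₁
  obtain ⟨h', hh'⟩ := hd₂
  have d1 : ∀ i, Polynomial.aeval f q₁.derivative * pderiv i f =
      pderiv i π * h + π * pderiv i h := by
    intro i
    have := congrArg (pderiv i) hh
    rw [Derivation.map_aeval, Derivation.leibniz, smul_eq_mul, smul_eq_mul, smul_eq_mul] at this
    rw [this]; ring
  have d2 : ∀ i, Polynomial.aeval g r₁.derivative * pderiv i g =
      pderiv i π * h' + π * pderiv i h' := by
    intro i
    have := congrArg (pderiv i) hh'
    rw [Derivation.map_aeval, Derivation.leibniz, smul_eq_mul, smul_eq_mul, smul_eq_mul] at this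
    rw [this]; ring
  have key : Polynomial.aeval f q₁.derivative * Polynomial.aeval g r₁.derivative * Jac f g =
      (Polynomial.aeval f q₁.derivative * pderiv 0 f) *
        (Polynomial.aeval g r₁.derivative * pderiv 1 g) -
      (Polynomial.aeval f q₁.derivative * pderiv 1 f) *
        (Polynomial.aeval g r₁.derivative * pderiv 0 g) := by
    rw [Jac]; ring
  rw [hJ, mul_one, d1, d1, d2, d2] at key
  have hdv : π ∣ Polynomial.aeval f q₁.derivative * Polynomial.aeval g r₁.derivative := by
    rw [key]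
    refine ⟨pderiv 0 π * h * pderiv 1 h' + pderiv 0 h * (pderiv 1 π * h' + π * pderiv 1 h') -
      pderiv 1 π * h * pderiv 0 h' - pderiv 1 h * (pderiv 0 π * h' + π * pderiv 0 h'), ?_⟩
    ring
  rcases hp.dvd_or_dvd hdv with h3 | h3
  · exact e1 h3
  · exact e2 h3

end Pool.Agent.W766.DX
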