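import Pool.Agent.W443.DX.Stm4
import Pool.Agent.W351.DX.Evm

/-!
# DX3-RMP
-/

set_option autoImplicit false

namespace Pool.Agent.W766.DX

open MvPolynomial Pool.Agent.W443.DX Pool.Agent.W351.DX

theorem mapW_wx (R S : Type) [CommRing R] [CommRing S] (σ : R →+* S) :
    mapW σ (wx R) = wx S := by
  rw [wx, wx, mapW_nf, map_X]

theorem mapW_wy (R S : Type) [CommRing R] [CommRing S] (σ : R →+* S) :
    mapW σ (wy R) = wy S := by
  rw [wy, wy, mapW_nf, map_X]

theorem rmp : S_RMP := by
  intro R S _ _ σ P Q u α β γ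
  refine ⟨?_, ?_⟩
  · rintro ⟨h0, h1, h2, h3⟩
    refine ⟨?_, ?_, ?_, ?_⟩
    · have h := congrArg (mapW σ) h0
      simpa only [map_mul, map_add, mapW_ev, mapW_wx, mapW_wy] using h
    · have h := congrArg (mapW σ) h1
      simpa only [map_mul, map_add, mapW_ev, mapW_wx, mapW_wy] using h
    · have h := congrArg (mapW σ) h2
      simpa only [map_mul, map_add, mapW_ev, mapW_wx, mapW_wy] using h
    · have h := congrArg (mapW σ) h3
      simpa only [map_mul, map_add, mapW_ev, mapW_wx, mapW_wy] using h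
  · rintro hσ ⟨h0, h1, h2, h3⟩
    have hi := mapW_injective σ hσ
    refine ⟨?_, ?_, ?_, ?_⟩
    · apply hi
      simpa only [map_mul, map_add, mapW_ev, mapW_wx, mapW_wy] using h0
    · apply hi
      simpa only [map_mul, map_add, mapW_ev, mapW_wx, mapW_wy] using h1
    · apply hi
      simpa only [map_mul, map_add, mapW_ev, mapW_wx, mapW_wy] using h2
    · apply hi
      simpa only [map_mul, map_add, mapW_ev, mapW_wx, mapW_wy] using h3

end Pool.Agent.W766.DX
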