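import Pool.Agent.W481.DX.Rnk

/-!
# Rank for pairs
-/

set_option autoImplicit false

namespace Pool.Agent.W766.DX

open MvPolynomial Pool.Agent.W443.DX Pool.Agent.W481.DX

theorem pairs (p : ℕ) [Fact p.Prime] (k : Type) [Field k] (ι : Type) [Fintype ι]
    (hι : 2 * p ^ 2 < Fintype.card ι) (A B : ι → MvPolynomial (Fin 2) k) :
    ∃ H : ι → MvPolynomial (Fin 2) k, H ≠ 0 ∧ ∑ l, expand p (H l) * A l = 0 ∧
      ∑ l, expand p (H l) * B l = 0 := by
  classical
  have hp : 0 < p := (Fact.out : p.Prime).pos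
  choose hA hhA using fun l => decomp p hp k (A l)
  choose hB hhB using fun l => decomp p hp k (B l)
  let M : Matrix ((Fin p × Fin p) ⊕ (Fin p × Fin p)) ι (MvPolynomial (Fin 2) k) :=
    fun ab l => Sum.elim (fun c => hA l c) (fun c => hB l c) ab
  have hni : ¬ Function.Injective M.mulVecLin := by
    intro hi
    have h1 := card_le_of_injective (MvPolynomial (Fin 2) k) M.mulVecLin hi
    simp only [Fintype.card_fin, Fintype.card_prod, Fintype.card_sum] at h1
    nlinarith
  rw [injective_iff_map_eq_zero] at hni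
  push Not at hni
  obtain ⟨H, hH, hH0⟩ := hni
  have key : ∀ (h : ι → Fin p × Fin p → MvPolynomial (Fin 2) k) (v : ι → MvPolynomial (Fin 2) k),
      (∀ l, v l = ∑ ab : Fin p × Fin p, expand p (h l ab) * (X 0 ^ (ab.1 : ℕ) * X 1 ^ (ab.2 : ℕ))) →
      (∀ ab, ∑ l, H l * h l ab = 0) → ∑ l, expand p (H l) * v l = 0 := by
    intro h v hh hz
    calc ∑ l, expand p (H l) * v l
        = ∑ l, ∑ ab : Fin p × Fin p,
            expand p (H l * h l ab) * (X 0 ^ (ab.1 : ℕ) * X 1 ^ (ab.2 : ℕ)) := by
          refine Finset.sum_congr rfl fun l _ => ?_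
          conv_lhs => rw [hh l]
          rw [Finset.mul_sum]
          refine Finset.sum_congr rfl fun ab _ => ?_
          rw [map_mul, mul_assoc]
      _ = ∑ ab : Fin p × Fin p, ∑ l,
            expand p (H l * h l ab) * (X 0 ^ (ab.1 : ℕ) * X 1 ^ (ab.2 : ℕ)) := Finset.sum_comm
      _ = ∑ ab : Fin p × Fin p,
            expand p (∑ l, H l * h l ab) * (X 0 ^ (ab.1 : ℕ) * X 1 ^ (ab.2 : ℕ)) := by
          refine Finset.sum_congr rfl fun ab _ => ?_
          rw [map_sum, Finset.sum_mul]
      _ = 0 := by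
          refine Finset.sum_eq_zero fun ab _ => ?_
          rw [hz, map_zero, zero_mul]
  refine ⟨H, hH0, key hA A hhA ?_, key hB B hhB ?_⟩
  · intro ab
    have h2 := congrFun hH (Sum.inl ab)
    change ∑ l, hA l ab * H l = 0 at h2
    rw [← h2]
    exact Finset.sum_congr rfl fun l _ => mul_comm _ _
  · intro ab
    have h2 := congrFun hH (Sum.inr ab)
    change ∑ l, hB l ab * H l = 0 at h2
    rw [← h2]
    exact Finset.sum_congr rfl fun l _ => mul_comm _ _

end Pool.Agent.W766.DX
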