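import Pool.Agent.W443.DX.Stm4
import Pool.Agent.W766.DX.RnpBase

/-!
# DX3-RNP
-/

set_option autoImplicit false

namespace Pool.Agent.W766.DX

open MvPolynomial Pool.Agent.W443.DX

theorem rnp : S_RNP := by
  intro p _ k _ A B
  refine pairs p k (Fin 3 × Fin p × Fin p) ?_ A B
  have hp : 0 < p := (Fact.out : p.Prime).pos
  simp only [Fintype.card_prod, Fintype.card_fin]
  nlinarith [Nat.mul_pos hp hp]

end Pool.Agent.W766.DX
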