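import Pool.Agent.W443.DX.Stm4

/-!
# DX3-TWO
-/

set_option autoImplicit false

namespace Pool.Agent.W766.DX

open MvPolynomial Pool.Agent.W443.DX

theorem ev_eq_sum {K A : Type} [CommRing K] [Ring A] [Algebra K A] (P Q : A)
    (F : MvPolynomial (Fin 2) K) :
    ev P Q F = ∑ m ∈ F.support, algebraMap K A (coeff m F) * (P ^ (m 0) * Q ^ (m 1)) := by
  conv_lhs => rw [F.as_sum]
  rw [map_sum]
  refine Finset.sum_congr rfl fun m _ => ?_
  rw [ev_monomial, Algebra.smul_def]

theorem algebraMap_W_inj {K : Type} [Field K] (c : K) (h : algebraMap K (W K) c = 0) : c = 0 := by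
  have h1 : algebraMap K (W K) c = nf K (C c) := by
    rw [Algebra.algebraMap_eq_smul_one, ← nf_one, ← map_smul, smul_eq_C_mul, mul_one]
  rw [h1] at h
  have h2 : (C c : MvPolynomial (Fin 2) K) = 0 := (nf K).injective (by rw [h, map_zero])
  rwa [C_eq_zero] at h2

theorem ev_inj {K : Type} [Field K] [CharZero K] (P Q : W K) (h : P * Q - Q * P = 1)
    (F : MvPolynomial (Fin 2) K) (hF : ev P Q F = 0) : F = 0 := by
  classical
  let γ : (Fin 2 →₀ ℕ) →₀ W K := Finsupp.onFinset F.support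
    (fun d => algebraMap K (W K) (coeff d F)) (by
      intro d hd
      rw [mem_support_iff]
      intro h0
      exact hd (by rw [h0, map_zero]))
  have hγd : ∀ d, γ d = algebraMap K (W K) (coeff d F) := fun d => Finsupp.onFinset_apply
  have hc : ∀ (c : K) (Z : W K), Z * algebraMap K (W K) c = algebraMap K (W K) c * Z :=
    fun c Z => (Algebra.commutes c Z).symm
  have hγ : γ = 0 := by
    refine Pool.Agent.H88R2.DC.indep_finsupp K h γ (fun d => ?_) (fun d => ?_) ?_
    · rw [hγd, hc]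
    · rw [hγd, hc]
    · rw [Finsupp.onFinset_sum _ (fun a => by rw [zero_mul]), ← hF, ev_eq_sum]
  ext d
  have h1 : algebraMap K (W K) (coeff d F) = 0 := by rw [← hγd, hγ]; rfl
  rw [coeff_zero]
  exact algebraMap_W_inj _ h1

theorem two (_h1 : S_NZD) (_h2 : S_LFT) (_h3 : S_DER) : S_TWO := by
  intro K _ _ P Q hPQ hdep
  have hinj := ev_inj P Q hPQ
  by_cases hA : ∀ w : W K, ∃ α γ : MvPolynomial (Fin 2) K, ¬ (α = 0 ∧ γ = 0) ∧
      ev P Q α + ev P Q γ * w = 0
  · have hA' : ∀ w : W K, ∃ γ β : MvPolynomial (Fin 2) K, γ ≠ 0 ∧ ev P Q γ * w = ev P Q β := by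
      intro w
      obtain ⟨α, γ, hne, he⟩ := hA w
      refine ⟨γ, -α, ?_, ?_⟩
      · rintro rfl
        rw [map_zero, zero_mul, add_zero] at he
        exact hne ⟨hinj _ he, rfl⟩
      · rw [map_neg, eq_neg_iff_add_eq_zero, add_comm, he]
    choose γ β hγ hβ using hA'
    let v : Fin 4 → W K := ![wx K, wy K, 1 * wx K, 1 * wy K]
    refine ⟨1, fun t => γ (v t), fun t => β (v t), fun _ => 0, fun t => hγ _, ?_, ?_, ?_, ?_⟩
    · rw [map_zero, zero_mul, add_zero]; exact hβ (wx K)
    · rw [map_zero, zero_mul, add_zero]; exact hβ (wy K)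
    · rw [map_zero, zero_mul, add_zero]; exact hβ (1 * wx K)
    · rw [map_zero, zero_mul, add_zero]; exact hβ (1 * wy K)
  · push Not at hA
    obtain ⟨u, hu⟩ := hA
    have hB : ∀ w : W K, ∃ α β γ : MvPolynomial (Fin 2) K, α ≠ 0 ∧
        ev P Q α * w = ev P Q β + ev P Q γ * u := by
      intro w
      obtain ⟨α, β, γ, hne, he⟩ := hdep 1 u w
      refine ⟨γ, -α, -β, ?_, ?_⟩
      · rintro rfl
        rw [map_zero, zero_mul, add_zero, mul_one] at he
        refine hu α β ?_ he
        intro h0 h0'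
        exact hne ⟨h0, h0', rfl⟩
      · rw [mul_one] at he
        rw [map_neg, map_neg, neg_mul, ← sub_eq_zero, ← he]
        abel
    choose α β γ hα hβ using hB
    let v : Fin 4 → W K := ![wx K, wy K, u * wx K, u * wy K]
    exact ⟨u, fun t => α (v t), fun t => β (v t), fun t => γ (v t), fun t => hα _,
      hβ (wx K), hβ (wy K), hβ (u * wx K), hβ (u * wy K)⟩

end Pool.Agent.W766.DX
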